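import Pool.Agent.Helper78_NDM.Stmts
import Pool.Agent.Helper6_Mono.WHDec

/-!
# NDM module PRD: independent sets of forms
-/

set_option autoImplicit false

namespace Pool.Agent.NDM.H81

open PowerSeries Finset Pool.Agent.Helper6_Mono Pool.Agent.Helper32_OMP Pool.Agent.NDM

/-- the sequence `[e ∣ M] c(M)` -/
theorem rp_dvd {R : Type 1} [CommRing R] {L0 : Rˣ} {S : Set ℚ} {c : ℕ → R}
    (h : RP L0 (steps S) c) {e : ℕ} (he : 0 < e) :
    RP L0 (steps S) (fun M => if e ∣ M then c M else 0) := by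
  have h1 : RP L0 (steps {((0 : ℕ) : ℚ) / e}) (fun M => if e ∣ M then (1 : R) else 0) := by
    apply RP.of_periodic he 0
    intro m _
    have : e ∣ m + e ↔ e ∣ m := by simp
    simp only [this, pow_zero, one_mul]
  have h2 := h.hadamard h1
  refine (h2.mono ?_).congr ?_
  · rintro p ⟨hp, y, hy, z, hz, hyz⟩
    refine ⟨hp, ?_⟩
    have hz0 : z = 0 := by
      rw [Set.mem_singleton_iff] at hz
      rw [hz]; simp
    rw [hyz, hz0, add_zero]
    exact hy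
  · intro m
    split_ifs <;> simp

theorem EE_congr {k : Type} [Field k] {β : Type} {wβ : β → QZ} {R : Type 1} [CommRing R]
    {L0 : Rˣ} (χ : SInv k wβ L0) (Y : Over k QZ β wβ) {wu : QZ} (u : NF Y.F wu) (P : GF k QZ)
    (g : NF P 0) (e : ℕ) (w w' : QZ) (h : wu + e • w = 0) (h' : wu + e • w' = 0) (hw : w = w') :
    χ.χ (EE Y u P g e w h) = χ.χ (EE Y u P g e w' h') := by
  subst hw
  rfl

theorem Li_mul {R : Type 1} [CommRing R] (L0 : Rˣ) (n : ℕ) : Li L0 ^ n * (L0 : R) ^ n = 1 := by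
  rw [← mul_pow, Units.inv_mul, one_pow]

/-- MODULE PRD -/
theorem prd (hD : DblStmt) (hS : SplStmt) (hW : SwpStmt) (hT : Tr2Stmt) : PrdStmt := by
  classical
  intro k _ σ ι _ _ R _ L0 L m A B S T hAB hsp hA hB
  obtain ⟨DA, hDA⟩ := hA
  obtain ⟨DB, hDB⟩ := hB
  let _ := DA.fin
  let _ := DB.fin
  have hmm : ∑ i ∈ A ∪ B, m i = ∑ i ∈ A, m i + ∑ i ∈ B, m i := Finset.sum_union hAB
  let cA : DA.Λ → ℕ → R := fun a M => if DA.e a ∣ M then DA.c a M else 0
  let cB : DB.Λ → ℕ → R := fun b M => if DB.e b ∣ M then DB.c b M else 0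
  let cc : DB.Λ × DA.Λ → ℕ → R := fun q M =>
    ((L0 : R) - 1) * ∑ p ∈ antidiagonal M, cA q.2 p.1 * cB q.1 p.2
  have hgd : ∀ q : DB.Λ × DA.Λ, Nat.gcd (DB.e q.1) (DA.e q.2) ∣ ∑ i ∈ A ∪ B, m i := by
    intro q
    rw [hmm]
    exact dvd_add ((Nat.gcd_dvd_right _ _).trans (DA.edvd q.2))
      ((Nat.gcd_dvd_left _ _).trans (DB.edvd q.1))
  have hrp : ∀ q, RP L0 (steps (S ∪ T)) (cc q) := by
    intro q
    exact (RP.cauchy (rp_dvd (DA.rp q.2) (DA.epos q.2)) (rp_dvd (DB.rp q.1) (DB.epos q.1))).smul _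
  let DD : Dat k L0 (∑ i ∈ A ∪ B, m i) (S ∪ T) :=
    { Λ := DB.Λ × DA.Λ
      fin := inferInstance
      P := fun q => (DB.P q.1).prod (DA.P q.2)
      ft := fun q => (DB.ft q.1).prod (DA.ft q.2)
      g := fun q => gg (DB.g q.1) (DA.g q.2)
      e := fun q => Nat.gcd (DB.e q.1) (DA.e q.2)
      epos := fun q => Nat.gcd_pos_of_pos_left _ (DB.epos q.1)
      edvd := hgd
      c := cc
      rp := hrp }
  refine ⟨DD, ?_⟩
  intro β wβ χ Y hY wu u M ω θ h
  have h' : wu + (∑ i ∈ A, m i + ∑ i ∈ B, m i) • θ + M • ω = 0 := by rw [← hmm]; exact h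
  set n := Fintype.card σ with hn
  -- the values
  let X : DB.Λ × DA.Λ → R := fun q =>
    if hg : Nat.gcd (DB.e q.1) (DA.e q.2) ∣ M then
      χ.χ (EE Y u ((DB.P q.1).prod (DA.P q.2)) (gg (DB.g q.1) (DA.g q.2))
        (Nat.gcd (DB.e q.1) (DA.e q.2))
        (((∑ i ∈ A ∪ B, m i) / Nat.gcd (DB.e q.1) (DA.e q.2)) • θ +
          (M / Nat.gcd (DB.e q.1) (DA.e q.2)) • ω) (hEE h (hgd q) hg)) else 0
  have hval : DD.val χ M ω θ Y u h = ∑ q : DB.Λ × DA.Λ, cc q M * X q := by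
    show (∑ q : DB.Λ × DA.Λ, if he : Nat.gcd (DB.e q.1) (DA.e q.2) ∣ M then cc q M *
      χ.χ (EE Y u ((DB.P q.1).prod (DA.P q.2)) (gg (DB.g q.1) (DA.g q.2))
        (Nat.gcd (DB.e q.1) (DA.e q.2))
        (((∑ i ∈ A ∪ B, m i) / Nat.gcd (DB.e q.1) (DA.e q.2)) • θ +
          (M / Nat.gcd (DB.e q.1) (DA.e q.2)) • ω) (hEE h (hgd q) he)) else 0) = _
    refine Finset.sum_congr rfl fun q _ => ?_
    simp only [X]
    split_ifs with hg
    · rfl
    · rw [mul_zero]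
  rw [hval]
  -- the inner step: a term of the sum over `b`
  have key : ∀ (M₁ M₂ : ℕ) (hM : M₁ + M₂ = M) (b : DB.Λ) (hb : DB.e b ∣ M₂),
      Li L0 ^ (n * M) * χ.χ (EE (YO L m A M M₁ ω θ Y) (uO L m A M M₁ ω θ Y u) (DB.P b) (DB.g b)
        (DB.e b) (((∑ i ∈ B, m i) / DB.e b) • θ + (M₂ / DB.e b) • ω)
        (hEE (hYO h' hM) (DB.edvd b) hb)) = ∑ a : DA.Λ, cA a M₁ * (((L0 : R) - 1) * X (b, a)) := by
    intro M₁ M₂ hM b hb
    set w : QZ := ((∑ i ∈ B, m i) / DB.e b) • θ + (M₂ / DB.e b) • ω with hw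
    have hew : DB.e b • w = (∑ i ∈ B, m i) • θ + M₂ • ω := by
      rw [hw, smul_add, smul_smul, smul_smul, Nat.mul_div_cancel' (DB.edvd b),
        Nat.mul_div_cancel' hb]
    have hh : (wu + DB.e b • w) + (∑ i ∈ A, m i) • θ + M₁ • ω = 0 := by
      rw [hew, ← h', ← hM, add_smul, add_smul]
      abel
    have e1 := hW k σ ι β wβ R L0 χ L m A Y hY wu u M M₁ ω θ (by omega) (DB.P b) (DB.ft b) (DB.g b)
      (DB.e b) w (DB.epos b) (hEE (hYO h' hM) (DB.edvd b) hb) hh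
    have hYP : FT ((Y.times (DB.P b)).times (GF.line k w)).F :=
      (hY.prod (DB.ft b)).prod (FT.line w)
    have e2 := hDA β wβ χ ((Y.times (DB.P b)).times (GF.line k w)) hYP (wu + DB.e b • w)
      (ugx Y u (DB.P b) (DB.g b) (DB.e b) w) M₁ ω θ hh
    rw [e1]
    have e3 : Li L0 ^ (n * M) * ((L0 : R) ^ (n * (M - M₁)) *
        χ.χ (JJ L m A M₁ ω θ ((Y.times (DB.P b)).times (GF.line k w))
          (ugx Y u (DB.P b) (DB.g b) (DB.e b) w) hh)) =
        Li L0 ^ (n * M₁) * χ.χ (JJ L m A M₁ ω θ ((Y.times (DB.P b)).times (GF.line k w))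
          (ugx Y u (DB.P b) (DB.g b) (DB.e b) w) hh) := by
      have : n * M = n * M₁ + n * (M - M₁) := by
        rw [← Nat.mul_add]; congr 1; omega
      rw [this, pow_add]
      calc _ = Li L0 ^ (n * M₁) * (Li L0 ^ (n * (M - M₁)) * (L0 : R) ^ (n * (M - M₁))) *
            χ.χ (JJ L m A M₁ ω θ ((Y.times (DB.P b)).times (GF.line k w))
              (ugx Y u (DB.P b) (DB.g b) (DB.e b) w) hh) := by ring
        _ = _ := by rw [Li_mul, mul_one]
    rw [e3, e2]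
    show (∑ a : DA.Λ, if he : DA.e a ∣ M₁ then DA.c a M₁ * χ.χ (EE
      ((Y.times (DB.P b)).times (GF.line k w)) (ugx Y u (DB.P b) (DB.g b) (DB.e b) w) (DA.P a)
      (DA.g a) (DA.e a) (((∑ i ∈ A, m i) / DA.e a) • θ + (M₁ / DA.e a) • ω)
      (hEE hh (DA.edvd a) he)) else 0) = _
    refine Finset.sum_congr rfl fun a _ => ?_
    simp only [cA]
    split_ifs with ha
    · congr 1
      set w' : QZ := ((∑ i ∈ A, m i) / DA.e a) • θ + (M₁ / DA.e a) • ω with hw'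
      have hgM : Nat.gcd (DB.e b) (DA.e a) ∣ M := by
        rw [← hM]
        exact dvd_add ((Nat.gcd_dvd_right _ _).trans ha) ((Nat.gcd_dvd_left _ _).trans hb)
      have hwt : (DB.e b / Nat.gcd (DB.e b) (DA.e a)) • w +
          (DA.e a / Nat.gcd (DB.e b) (DA.e a)) • w' =
          ((∑ i ∈ A ∪ B, m i) / Nat.gcd (DB.e b) (DA.e a)) • θ +
            (M / Nat.gcd (DB.e b) (DA.e a)) • ω := by
        have hd1 : DB.e b / Nat.gcd (DB.e b) (DA.e a) * ((∑ i ∈ B, m i) / DB.e b)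
            = (∑ i ∈ B, m i) / Nat.gcd (DB.e b) (DA.e a) := by
          rw [Nat.div_mul_div_comm (Nat.gcd_dvd_left _ _) (DB.edvd b), mul_comm (Nat.gcd _ _),
            Nat.mul_div_mul_left _ _ (DB.epos b)]
        have hd2 : DB.e b / Nat.gcd (DB.e b) (DA.e a) * (M₂ / DB.e b)
            = M₂ / Nat.gcd (DB.e b) (DA.e a) := by
          rw [Nat.div_mul_div_comm (Nat.gcd_dvd_left _ _) hb, mul_comm (Nat.gcd _ _),
            Nat.mul_div_mul_left _ _ (DB.epos b)]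
        have hd3 : DA.e a / Nat.gcd (DB.e b) (DA.e a) * ((∑ i ∈ A, m i) / DA.e a)
            = (∑ i ∈ A, m i) / Nat.gcd (DB.e b) (DA.e a) := by
          rw [Nat.div_mul_div_comm (Nat.gcd_dvd_right _ _) (DA.edvd a), mul_comm (Nat.gcd _ _),
            Nat.mul_div_mul_left _ _ (DA.epos a)]
        have hd4 : DA.e a / Nat.gcd (DB.e b) (DA.e a) * (M₁ / DA.e a)
            = M₁ / Nat.gcd (DB.e b) (DA.e a) := by
          rw [Nat.div_mul_div_comm (Nat.gcd_dvd_right _ _) ha, mul_comm (Nat.gcd _ _),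
            Nat.mul_div_mul_left _ _ (DA.epos a)]
        rw [hw, hw', smul_add, smul_add, smul_smul, smul_smul, smul_smul, smul_smul, hd1, hd2, hd3,
          hd4, hmm, Nat.add_div_of_dvd_right ((Nat.gcd_dvd_right _ _).trans (DA.edvd a)), ← hM,
          Nat.add_div_of_dvd_right ((Nat.gcd_dvd_right _ _).trans ha), add_smul, add_smul]
        abel
      have hh' : wu + Nat.gcd (DB.e b) (DA.e a) • ((DB.e b / Nat.gcd (DB.e b) (DA.e a)) • w +
          (DA.e a / Nat.gcd (DB.e b) (DA.e a)) • w') = 0 := by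
        rw [hwt]
        exact hEE h (hgd (b, a)) hgM
      have e4 := hT k β wβ R L0 χ Y hY wu u (DB.P b) (DB.ft b) (DB.g b) (DB.e b) w (DB.epos b)
        (DA.P a) (DA.ft a) (DA.g a) (DA.e a) w' (DA.epos a) (hEE hh (DA.edvd a) ha) hh'
      rw [e4]
      congr 1
      simp only [X]
      rw [dif_pos hgM]
      exact EE_congr χ Y u _ _ _ _ _ _ _ hwt
    · rw [zero_mul]
  -- the outer step
  have e5 := hD k σ ι β wβ R L0 χ L m A B hAB hsp Y hY wu u M ω θ h h'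
  have e6 := hS k σ ι β wβ R L0 χ L m A B Y hY wu u M ω θ h'
  have e7 : χ.χ (JJ L m (A ∪ B) M ω θ Y u h) = Li L0 ^ (n * M) * χ.χ (J2 L m A B M ω θ Y u h') := by
    rw [← e5, ← mul_assoc, Li_mul, one_mul]
  rw [e7, e6, Finset.mul_sum, Finset.mul_sum]
  have e8 : ∀ p ∈ antidiagonal M, Li L0 ^ (n * M) * (Li L0 ^ (n * M) *
      (if hp : p.1 + p.2 = M then (L0 : R) ^ (n * (M - p.2)) *
        χ.χ (JJ L m B p.2 ω θ (YO L m A M p.1 ω θ Y) (uO L m A M p.1 ω θ Y u) (hYO h' hp)) else 0))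
      = ∑ q : DB.Λ × DA.Λ, ((L0 : R) - 1) * (cA q.2 p.1 * cB q.1 p.2) * X q := by
    intro p hp
    have hp : p.1 + p.2 = M := Finset.HasAntidiagonal.mem_antidiagonal.1 hp
    rw [dif_pos hp]
    have e9 : Li L0 ^ (n * M) * ((L0 : R) ^ (n * (M - p.2)) *
        χ.χ (JJ L m B p.2 ω θ (YO L m A M p.1 ω θ Y) (uO L m A M p.1 ω θ Y u) (hYO h' hp)))
        = Li L0 ^ (n * p.2) *
        χ.χ (JJ L m B p.2 ω θ (YO L m A M p.1 ω θ Y) (uO L m A M p.1 ω θ Y u) (hYO h' hp)) := by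
      have : n * M = n * p.2 + n * (M - p.2) := by
        rw [← Nat.mul_add]; congr 1; omega
      rw [this, pow_add]
      calc _ = Li L0 ^ (n * p.2) * (Li L0 ^ (n * (M - p.2)) * (L0 : R) ^ (n * (M - p.2))) *
            χ.χ (JJ L m B p.2 ω θ (YO L m A M p.1 ω θ Y) (uO L m A M p.1 ω θ Y u) (hYO h' hp)) := by
            ring
        _ = _ := by rw [Li_mul, mul_one]
    rw [e9, hDB β wβ χ (YO L m A M p.1 ω θ Y) (FT_YO L m A M p.1 ω θ hY) _
      (uO L m A M p.1 ω θ Y u) p.2 ω θ (hYO h' hp)]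
    show Li L0 ^ (n * M) * (∑ b : DB.Λ, if he : DB.e b ∣ p.2 then DB.c b p.2 * χ.χ (EE
      (YO L m A M p.1 ω θ Y) (uO L m A M p.1 ω θ Y u) (DB.P b) (DB.g b) (DB.e b)
      (((∑ i ∈ B, m i) / DB.e b) • θ + (p.2 / DB.e b) • ω)
      (hEE (hYO h' hp) (DB.edvd b) he)) else 0) = _
    rw [Finset.mul_sum, Fintype.sum_prod_type]
    refine Finset.sum_congr rfl fun b _ => ?_
    by_cases hb : DB.e b ∣ p.2
    · rw [dif_pos hb, mul_left_comm, key p.1 p.2 hp b hb, Finset.mul_sum]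
      refine Finset.sum_congr rfl fun a _ => ?_
      simp only [cB]
      rw [if_pos hb]
      ring
    · rw [dif_neg hb, mul_zero]
      symm
      apply Finset.sum_eq_zero
      intro a _
      simp only [cB]
      rw [if_neg hb]
      ring
  rw [Finset.sum_congr rfl e8, Finset.sum_comm]
  refine Finset.sum_congr rfl fun q _ => ?_
  simp only [cc]
  rw [Finset.mul_sum, Finset.sum_mul]

end Pool.Agent.NDM.H81
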